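import Mathlib

/-! A counting inequality for submonoids of the natural numbers. -/

namespace Pool.Agent.MP_698530_nt.Hs

open Finset

lemma mem_of_dvd (S : AddSubmonoid ℕ) {m n : ℕ} (hm : m ∈ S) (h : m ∣ n) : n ∈ S := by
  obtain ⟨c, rfl⟩ := h
  rw [mul_comm, ← smul_eq_mul]
  exact S.nsmul_mem hm c

lemma mem_of_two (S : AddSubmonoid ℕ) (h2 : 2 ∈ S) {t : ℕ} (h0 : t ∈ S) (h1 : t + 1 ∈ S) {n : ℕ}
    (h : t ≤ n) : n ∈ S := by
  rcases Nat.even_or_odd' (n - t) with ⟨c, hc | hc⟩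
  · have : n = t + 2 * c := by omega
    rw [this]
    exact S.add_mem h0 (mem_of_dvd S h2 (dvd_mul_right 2 c))
  · have : n = t + 1 + 2 * c := by omega
    rw [this]
    exact S.add_mem h1 (mem_of_dvd S h2 (dvd_mul_right 2 c))

lemma chain (B : Finset ℕ) {u v : ℕ} (hu : ∀ b ∈ B, u ≤ b) (hv : ∀ b ∈ B, b ≤ v) :
    2 * #B ≤ #(B.image (u + ·) ∪ B.image (v + ·)) + 1 := by
  have h1 := card_union_add_card_inter (B.image (u + ·)) (B.image (v + ·))
  rw [card_image_of_injective _ (add_right_injective u),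
    card_image_of_injective _ (add_right_injective v)] at h1
  have h2 : B.image (u + ·) ∩ B.image (v + ·) ⊆ {u + v} := by
    intro c hc
    simp only [mem_inter, mem_image] at hc
    obtain ⟨⟨b, hb, rfl⟩, b', hb', e⟩ := hc
    have := hv b hb
    have := hu b' hb'
    rw [mem_singleton]
    omega
  have h3 := card_le_card h2
  rw [card_singleton] at h3
  omega

/-- the tight case: the least element divides one of the three gcds -/
lemma tight (S : AddSubmonoid ℕ) {K p y m a : ℕ} (h1 : 1 ∉ S) (hy : y ∈ S) (hyK : y ≤ K)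
    (hm : m ∈ S) (hm0 : 0 < m) (ha : a ∈ S) (hap : a ≤ p) (hKm : K < y + m)
    (hmin : ∀ t ∈ S, 0 < t → t ≤ p → m ≤ t ∧ t ≤ a) (hma : m ≤ a)
    (hB : ∀ b ∈ S, K < b → b ≤ K + p → ∃ t ∈ S, 0 < t ∧ t ≤ p ∧ b = y + t)
    (hC : ∀ c ∈ S, 2 * K < c → c ≤ 2 * K + 2 * p →
      (∃ t ∈ S, 0 < t ∧ t ≤ p ∧ (c = 2 * y + m + t ∨ c = 2 * y + a + t)) ∨ c = 2 * K + 1 ∨
        c = 2 * K + 3) :
    2 ≤ m ∧ ((m ∣ p ∧ m ∣ 2 * K + 1) ∨ (m ∣ p ∧ m ∣ 2 * K + 3) ∨ (m ∣ p - 1 ∧ m ∣ 2 * K + 3)) := by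
  have hm2 : 2 ≤ m := by
    by_contra h
    have : m = 1 := by omega
    exact h1 (this ▸ hm)
  have hy2 : 2 * y ∈ S := mem_of_dvd S hy (dvd_mul_left y 2)
  have h2 : 2 * K + 2 * p < 2 * y + 2 * a + m := by
    by_contra h
    rcases hC (2 * y + 2 * a + m)
      (S.add_mem (S.add_mem hy2 (mem_of_dvd S ha (dvd_mul_left a 2))) hm) (by omega) (by omega)
      with ⟨t, ht, ht0, htp, e⟩ | e | e
    · have := hmin t ht ht0 htp
      omega
    · omega
    · omega
  have h3 : 2 * y + m = 2 * K + 1 ∨ 2 * y + m = 2 * K + 3 := by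
    rcases hC (2 * y + m) (S.add_mem hy2 hm) (by omega) (by omega) with ⟨t, ht, ht0, htp, e⟩ | e
    · omega
    · exact e
  have rule : ∀ t ∈ S, 0 < t → t ≤ p →
      t = m ∨ (m < t ∧ t - m ∈ S) ∨ (t = m + 2 ∧ 2 * y + m = 2 * K + 1) := by
    intro t ht ht0 htp
    have := hmin t ht ht0 htp
    rcases hC (2 * y + t) (S.add_mem hy2 ht) (by omega) (by omega) with ⟨s, hs, hs0, hsp, e⟩ | e
    · right; left
      have : t - m = s := by omega
      exact ⟨by omega, this ▸ hs⟩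
    · omega
  have kill : ¬ (m + 2 ∈ S ∧ m + 2 ≤ p ∧ 2 * y + m = 2 * K + 1) := by
    rintro ⟨k1, k2, k3⟩
    have n1 : ∀ t ∈ S, t ≤ p → t ≠ m + 1 := by
      rintro t ht htp rfl
      rcases rule _ ht (by omega) htp with e | ⟨-, e⟩ | e
      · omega
      · rw [Nat.add_sub_cancel_left] at e
        exact h1 e
      · omega
    have n4 : ∀ t ∈ S, t ≤ p → t ≠ m + 4 := by
      rintro t ht htp rfl
      rcases rule _ ht (by omega) htp with e | ⟨-, e⟩ | e
      · omega
      · rw [Nat.add_sub_cancel_left] at e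
        have := hmin 4 e (by omega) (by omega)
        exact n1 4 e (by omega) (by omega)
      · omega
    have a2 := hmin _ k1 (by omega) k2
    have a4 := n4 a ha hap
    have ha2 : a = m + 2 := by
      rcases hC (2 * y + (m + 2) + (m + 2)) (S.add_mem (S.add_mem hy2 k1) k1) (by omega)
        (by omega) with ⟨s, hs, hs0, hsp, e⟩ | e
      · have := hmin s hs hs0 hsp
        have := n1 s hs hsp
        have := n4 s hs hsp
        omega
      · omega
    rcases hC (2 * y + m + m + m) (S.add_mem (S.add_mem (S.add_mem hy2 hm) hm) hm) (by omega)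
      (by omega) with ⟨s, hs, hs0, hsp, e⟩ | e
    · have := n1 s hs hsp
      omega
    · omega
  have hdvd : ∀ t, t ∈ S → t ≤ p → m ∣ t := by
    intro t
    induction t using Nat.strong_induction_on with
    | _ t ih =>
      intro ht htp
      rcases Nat.eq_zero_or_pos t with rfl | ht0
      · exact dvd_zero m
      rcases rule t ht ht0 htp with e | ⟨e, e'⟩ | ⟨e, e'⟩
      · rw [e]
      · have := ih (t - m) (by omega) e' (by omega)
        exact (Nat.dvd_sub_iff_left e.le dvd_rfl).mp this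
      · exact absurd ⟨e ▸ ht, e ▸ htp, e'⟩ kill
  have hmy : m ∣ y := by
    have e1 := Nat.div_add_mod K m
    have e2 := Nat.mod_lt K hm0
    obtain ⟨t, ht, -, htp, e⟩ := hB (m * (K / m) + m)
      (S.add_mem (mem_of_dvd S hm (dvd_mul_right _ _)) hm) (by omega) (by omega)
    have e3 : m ∣ y + t := e ▸ dvd_add (dvd_mul_right _ _) dvd_rfl
    exact (Nat.dvd_add_left (hdvd t ht htp)).mp e3
  have hz : m ∣ 2 * y + m := dvd_add (hmy.mul_left 2) dvd_rfl
  have hda := hdvd a ha hap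
  refine ⟨hm2, ?_⟩
  rcases h3 with e | e
  · have : a = p := by omega
    exact Or.inl ⟨this ▸ hda, e ▸ hz⟩
  · rcases (by omega : a = p ∨ a = p - 1) with e' | e'
    · exact Or.inr (Or.inl ⟨e' ▸ hda, e ▸ hz⟩)
    · exact Or.inr (Or.inr ⟨e' ▸ hda, e ▸ hz⟩)

open Classical in
lemma core (S : AddSubmonoid ℕ) {K p x y : ℕ} (h1 : 1 ∉ S) (hp : 2 ≤ p) (hx : 1 ≤ x) (hy : 1 ≤ y)
    (hxy : ¬ (x = 1 ∧ y = 1)) (h2 : p = 2 → Even x ∨ Even y ∨ K < x ∨ K < y)
    (hdiv : ∀ d, 2 ≤ d → (d ∣ p ∧ d ∣ 2 * K + 1) ∨ (d ∣ p ∧ d ∣ 2 * K + 3) ∨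
      (d ∣ p - 1 ∧ d ∣ 2 * K + 3) → d ∣ x ∨ d ∣ y)
    (A B C Z : Finset ℕ) (hA : ∀ t, t ∈ A ↔ t ∈ S ∧ 0 < t ∧ t ≤ p)
    (hB : ∀ t, t ∈ B ↔ t ∈ S ∧ K < t ∧ t ≤ K + p)
    (hC : ∀ t, t ∈ C ↔ t ∈ S ∧ 2 * K < t ∧ t ≤ 2 * K + 2 * p)
    (hZ : ∀ t, t ∈ Z ↔ t ∈ S ∧ (t = 2 * K + 1 ∨ t = 2 * K + 3))
    (hlt : #C < #A + #B + #Z) : #A + #B + #Z ≤ #C + 1 ∧ (x ∈ S ∨ y ∈ S) := by
  set y0 := Nat.findGreatest (· ∈ S) K with hy0
  have y0S : y0 ∈ S := Nat.findGreatest_spec (P := (· ∈ S)) (Nat.zero_le K) S.zero_mem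
  have y0K : y0 ≤ K := Nat.findGreatest_le K
  have y0max : ∀ t, y0 < t → t ≤ K → t ∉ S := fun t h h' =>
    Nat.findGreatest_is_greatest (P := (· ∈ S)) h h'
  have hAB : A.image (y0 + ·) ⊆ B := by
    intro b hb
    obtain ⟨a, ha, rfl⟩ := mem_image.mp hb
    obtain ⟨a1, a2, a3⟩ := (hA a).mp ha
    refine (hB _).mpr ⟨S.add_mem y0S a1, ?_, by omega⟩
    by_contra h
    exact y0max (y0 + a) (by omega) (by omega) (S.add_mem y0S a1)
  have cAB : #(A.image (y0 + ·)) = #A := card_image_of_injective _ (add_right_injective y0)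
  have lAB := card_le_card hAB
  have hZC : Z ⊆ C := fun t ht => by
    obtain ⟨t1, t2⟩ := (hZ t).mp ht
    exact (hC t).mpr ⟨t1, by omega, by omega⟩
  have hne : B.Nonempty := by
    rw [← card_pos]
    have := card_le_card hZC
    omega
  set u := B.min' hne with hu
  set v := B.max' hne with hv
  have uB : u ∈ B := B.min'_mem hne
  have vB : v ∈ B := B.max'_mem hne
  have umin : ∀ b ∈ B, u ≤ b := fun b hb => B.min'_le b hb
  have vmax : ∀ b ∈ B, b ≤ v := fun b hb => B.le_max' b hb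
  obtain ⟨u1, u2, u3⟩ := (hB u).mp uB
  obtain ⟨v1, v2, v3⟩ := (hB v).mp vB
  have cE := chain B umin vmax
  set E := B.image (u + ·) ∪ B.image (v + ·) with hE
  have mE : ∀ c, c ∈ E ↔ ∃ b ∈ B, c = u + b ∨ c = v + b := by
    intro c
    simp only [hE, mem_union, mem_image]
    constructor
    · rintro (⟨b, hb, rfl⟩ | ⟨b, hb, rfl⟩)
      · exact ⟨b, hb, Or.inl rfl⟩
      · exact ⟨b, hb, Or.inr rfl⟩
    · rintro ⟨b, hb, rfl | rfl⟩
      · exact Or.inl ⟨b, hb, rfl⟩
      · exact Or.inr ⟨b, hb, rfl⟩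
  have hEC : E ⊆ C := by
    intro c hc
    obtain ⟨b, hb, e⟩ := (mE c).mp hc
    obtain ⟨b1, b2, b3⟩ := (hB b).mp hb
    rcases e with rfl | rfl
    · exact (hC _).mpr ⟨S.add_mem u1 b1, by omega, by omega⟩
    · exact (hC _).mpr ⟨S.add_mem v1 b1, by omega, by omega⟩
  by_cases hk : K + 1 ∈ S ∧ K + 2 ∈ S
  · obtain ⟨k1, k2⟩ := hk
    have k1B : K + 1 ∈ B := (hB _).mpr ⟨k1, by omega, by omega⟩
    have k2B : K + 2 ∈ B := (hB _).mpr ⟨k2, by omega, by omega⟩
    have hdis : Disjoint E (Z.erase (2 * K + 3)) := by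
      rw [disjoint_left]
      intro c hc hc'
      obtain ⟨b, hb, e⟩ := (mE c).mp hc
      have := (hB b).mp hb
      have := (hZ c).mp (mem_of_mem_erase hc')
      have := ne_of_mem_erase hc'
      omega
    have hDC : E ∪ Z.erase (2 * K + 3) ⊆ C := union_subset hEC ((erase_subset _ _).trans hZC)
    have cD := card_union_of_disjoint hdis
    have lD := card_le_card hDC
    have cZ : #Z - 1 ≤ #(Z.erase (2 * K + 3)) := pred_card_le_card_erase
    set B' := insert (K + 1) (insert (K + 2) ((A.erase p).image (K + 1 + ·))) with hB'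
    have hBB : B' ⊆ B := by
      refine insert_subset k1B (insert_subset k2B ?_)
      intro b hb
      obtain ⟨a, ha, rfl⟩ := mem_image.mp hb
      obtain ⟨a1, a2, a3⟩ := (hA a).mp (mem_of_mem_erase ha)
      have := ne_of_mem_erase ha
      exact (hB _).mpr ⟨S.add_mem k1 a1, by omega, by omega⟩
    have n2 : K + 2 ∉ (A.erase p).image (K + 1 + ·) := by
      intro hb
      obtain ⟨a, ha, e⟩ := mem_image.mp hb
      obtain ⟨a1, a2, a3⟩ := (hA a).mp (mem_of_mem_erase ha)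
      have : a = 1 := by omega
      exact h1 (this ▸ a1)
    have n1 : K + 1 ∉ insert (K + 2) ((A.erase p).image (K + 1 + ·)) := by
      intro hb
      rcases mem_insert.mp hb with e | hb
      · omega
      obtain ⟨a, ha, e⟩ := mem_image.mp hb
      obtain ⟨a1, a2, a3⟩ := (hA a).mp (mem_of_mem_erase ha)
      omega
    have cB' : #B' = #(A.erase p) + 2 := by
      rw [hB', card_insert_of_notMem n1, card_insert_of_notMem n2,
        card_image_of_injective _ (add_right_injective (K + 1))]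
    have lB := card_le_card hBB
    have pA : p ∈ A := by
      by_contra h
      rw [erase_eq_of_notMem h] at cB'
      omega
    have cA := card_erase_add_one pA
    have eB : B' = B := eq_of_subset_of_card_le hBB (by omega)
    have eD : E ∪ Z.erase (2 * K + 3) = C := eq_of_subset_of_card_le hDC (by omega)
    have pS := ((hA p).mp pA).1
    have mB : ∀ b ∈ B, b = K + 1 ∨ b = K + 2 ∨ ∃ a ∈ S, b = K + 1 + a := by
      intro b hb
      rw [← eB, hB', mem_insert, mem_insert] at hb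
      rcases hb with e | e | hb
      · exact Or.inl e
      · exact Or.inr (Or.inl e)
      obtain ⟨a, ha, e⟩ := mem_image.mp hb
      exact Or.inr (Or.inr ⟨a, ((hA a).mp (mem_of_mem_erase ha)).1, e.symm⟩)
    have mC : ∀ c ∈ S, 2 * K + 1 < c → c ≤ 2 * K + 2 * p → ∃ b ∈ B, c = u + b ∨ c = v + b := by
      intro c c1 c2 c3
      have : c ∈ C := (hC c).mpr ⟨c1, by omega, c3⟩
      rw [← eD, mem_union] at this
      rcases this with h | h
      · exact (mE c).mp h
      · have := (hZ c).mp (mem_of_mem_erase h)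
        have := ne_of_mem_erase h
        omega
    have two : 2 ∈ S := by
      by_contra n2
      have n3 : ∀ b ∈ B, b ≠ K + 3 := by
        rintro b hb rfl
        rcases mB _ hb with e | e | ⟨a, ha, e⟩
        · omega
        · omega
        · have : a = 2 := by omega
          exact n2 (this ▸ ha)
      have p2 : p ≠ 2 := fun e => n2 (e ▸ pS)
      have q1 := umin _ k1B
      have q2 := vmax _ k2B
      have q3 := n3 v vB
      obtain ⟨b, hb, e⟩ := mC (K + 2 + (K + 2)) (S.add_mem k2 k2) (by omega) (by omega)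
      have q4 := n3 b hb
      have q5 := (hB b).mp hb
      obtain ⟨b', hb', e'⟩ := mC (K + 1 + (K + 1) + p) (S.add_mem (S.add_mem k1 k1) pS)
        (by omega) (by omega)
      have q6 := vmax b' hb'
      omega
    refine ⟨by omega, ?_⟩
    by_cases p2 : p = 2
    · rcases h2 p2 with e | e | e | e
      · exact Or.inl (mem_of_dvd S two e.two_dvd)
      · exact Or.inr (mem_of_dvd S two e.two_dvd)
      · exact Or.inl (mem_of_two S two k1 k2 e)
      · exact Or.inr (mem_of_two S two k1 k2 e)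
    · have three : 3 ∈ S := by
        by_cases p3 : p = 3
        · exact p3 ▸ pS
        rcases mB (K + 2 + 2) ((hB _).mpr ⟨S.add_mem k2 two, by omega, by omega⟩)
          with e | e | ⟨a, ha, e⟩
        · omega
        · omega
        · have : a = 3 := by omega
          exact this ▸ ha
      rcases (by omega : 2 ≤ x ∨ 2 ≤ y) with e | e
      · exact Or.inl (mem_of_two S two two three e)
      · exact Or.inr (mem_of_two S two two three e)
  · have hdis : Disjoint E Z := by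
      rw [disjoint_left]
      intro c hc hc'
      obtain ⟨b, hb, e⟩ := (mE c).mp hc
      obtain ⟨b1, b2, b3⟩ := (hB b).mp hb
      have := (hZ c).mp hc'
      apply hk
      rcases (by omega : (u = K + 1 ∧ b = K + 2) ∨ (b = K + 1 ∧ u = K + 2) ∨
        (v = K + 1 ∧ b = K + 2) ∨ (b = K + 1 ∧ v = K + 2)) with e | e | e | e
      · exact ⟨e.1 ▸ u1, e.2 ▸ b1⟩
      · exact ⟨e.1 ▸ b1, e.2 ▸ u1⟩
      · exact ⟨e.1 ▸ v1, e.2 ▸ b1⟩
      · exact ⟨e.1 ▸ b1, e.2 ▸ v1⟩
    have hDC : E ∪ Z ⊆ C := union_subset hEC hZC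
    have cD := card_union_of_disjoint hdis
    have lD := card_le_card hDC
    have eB : A.image (y0 + ·) = B := eq_of_subset_of_card_le hAB (by omega)
    have eD : E ∪ Z = C := eq_of_subset_of_card_le hDC (by omega)
    refine ⟨by omega, ?_⟩
    have mB : ∀ b ∈ B, ∃ t ∈ S, 0 < t ∧ t ≤ p ∧ b = y0 + t := by
      intro b hb
      rw [← eB] at hb
      obtain ⟨t, ht, e⟩ := mem_image.mp hb
      obtain ⟨t1, t2, t3⟩ := (hA t).mp ht
      exact ⟨t, t1, t2, t3, e.symm⟩
    obtain ⟨m, m1, m2, m3, em⟩ := mB u uB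
    obtain ⟨a, a1, a2, a3, ea⟩ := mB v vB
    have huv := umin v vB
    obtain ⟨t1, t2⟩ := tight S (K := K) (p := p) (y := y0) (m := m) (a := a) h1 y0S y0K m1 m2 a1 a3
      (by omega)
      (fun t ht ht0 htp => by
        have hb : y0 + t ∈ B := hAB (mem_image.mpr ⟨t, (hA t).mpr ⟨ht, ht0, htp⟩, rfl⟩)
        have := umin _ hb
        have := vmax _ hb
        omega)
      (by omega)
      (fun b b1 b2 b3 => mB b ((hB b).mpr ⟨b1, b2, b3⟩))
      (fun c c1 c2 c3 => by
        have : c ∈ C := (hC c).mpr ⟨c1, c2, c3⟩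
        rw [← eD, mem_union] at this
        rcases this with h | h
        · obtain ⟨b, hb, e⟩ := (mE c).mp h
          obtain ⟨t, t1, t2, t3, e'⟩ := mB b hb
          exact Or.inl ⟨t, t1, t2, t3, by omega⟩
        · exact Or.inr ((hZ c).mp h).2)
    rcases hdiv m t1 t2 with e | e
    · exact Or.inl (mem_of_dvd S m1 e)
    · exact Or.inr (mem_of_dvd S m1 e)

open Classical in
/-- indicator function of `S` -/
noncomputable def ind (S : AddSubmonoid ℕ) (t : ℕ) : ℕ := if t ∈ S then 1 else 0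

open Classical in
lemma sum_ind (S : AddSubmonoid ℕ) (a p : ℕ) :
    ∑ i ∈ range p, ind S (a + i + 1) = #{t ∈ Ioc a (a + p) | t ∈ S} := by
  rw [card_filter]
  induction p with
  | zero => simp
  | succ p ih =>
    rw [sum_range_succ, ih, ← add_assoc, sum_Ioc_succ_top (Nat.le_add_right a p)]
    rfl

open Classical in
theorem count (S : AddSubmonoid ℕ) {K p x y : ℕ} (hp : 1 ≤ p) (hx : 1 ≤ x) (hy : 1 ≤ y)
    (hxy : ¬ (x = 1 ∧ y = 1)) (h2 : p = 2 → Even x ∨ Even y ∨ K < x ∨ K < y)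
    (hdiv : ∀ d, 2 ≤ d → (d ∣ p ∧ d ∣ 2 * K + 1) ∨ (d ∣ p ∧ d ∣ 2 * K + 3) ∨
      (d ∣ p - 1 ∧ d ∣ 2 * K + 3) → d ∣ x ∨ d ∣ y) :
    ∑ i ∈ range p, ind S (0 + i + 1) + (∑ i ∈ range p, ind S (K + i + 1) +
        (ind S (2 * K + 1) + ind S (2 * K + 3))) ≤
      ∑ i ∈ range (p + p), ind S (2 * K + i + 1) + (ind S x + ind S y) := by
  by_cases h1 : 1 ∈ S
  · have : ∀ t, ind S t = 1 := fun t => if_pos (mem_of_dvd S h1 (one_dvd t))
    simp only [this, sum_const, card_range, smul_eq_mul]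
    omega
  have i1 : ∀ t, t ∈ S → ind S t = 1 := fun t h => if_pos h
  have i0 : ∀ t, t ∉ S → ind S t = 0 := fun t h => if_neg h
  rcases (by omega : p = 1 ∨ 2 ≤ p) with rfl | hp2
  · simp only [sum_range_succ, range_zero, sum_empty, zero_add, add_zero]
    have e1 : ind S (K + 1) ≤ ind S (2 * K + 1 + 1) := by
      by_cases h : K + 1 ∈ S
      · rw [i1 _ h, i1 _ (mem_of_dvd S h ⟨2, by ring⟩)]
      · rw [i0 _ h]; exact Nat.zero_le _
    have e2 : ind S (2 * K + 3) ≤ ind S x + ind S y := by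
      by_cases h : 2 * K + 3 ∈ S
      · rcases hdiv (2 * K + 3) (by omega) (Or.inr (Or.inr ⟨dvd_zero _, dvd_rfl⟩)) with e | e
        · rw [i1 _ h, i1 _ (mem_of_dvd S h e)]; omega
        · rw [i1 _ h, i1 _ (mem_of_dvd S h e)]; omega
      · rw [i0 _ h]; exact Nat.zero_le _
    have := i0 1 h1
    omega
  have eZ : ind S (2 * K + 1) + ind S (2 * K + 3) =
      #{t ∈ ({2 * K + 1, 2 * K + 3} : Finset ℕ) | t ∈ S} := by
    rw [card_filter, sum_pair (by omega)]
    rfl
  rw [sum_ind, sum_ind, sum_ind, eZ]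
  by_contra hc
  have := core S h1 hp2 hx hy hxy h2 hdiv {t ∈ Ioc 0 (0 + p) | t ∈ S} {t ∈ Ioc K (K + p) | t ∈ S}
    {t ∈ Ioc (2 * K) (2 * K + (p + p)) | t ∈ S} {t ∈ ({2 * K + 1, 2 * K + 3} : Finset ℕ) | t ∈ S}
    (fun t => by simp only [mem_filter, mem_Ioc, zero_add]; tauto)
    (fun t => by simp only [mem_filter, mem_Ioc]; tauto)
    (fun t => by simp only [mem_filter, mem_Ioc, two_mul p]; tauto)
    (fun t => by simp only [mem_filter, mem_insert, mem_singleton]; tauto)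
    (by omega)
  obtain ⟨q, e | e⟩ := this
  · have := i1 _ e
    omega
  · have := i1 _ e
    omega

end Pool.Agent.MP_698530_nt.Hs
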