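import Pool.Agent.MP_698530_nt.Hs.Hilb
import Pool.Agent.MP_698530_nt.Hs.Semi

/-! Positivity with both odd factors. -/

namespace Pool.Agent.MP_698530_nt.Hs

open Finset Polynomial

theorem both (K p x y : ℕ) (hp : 1 ≤ p) (hx : 1 ≤ x) (hy : 1 ≤ y)
    (hxy : ¬ (x = 1 ∧ y = 1)) (h2 : p = 2 → Even x ∨ Even y ∨ K < x ∨ K < y)
    (hdiv : ∀ d, 2 ≤ d → (d ∣ p ∧ d ∣ 2 * K + 1) ∨ (d ∣ p ∧ d ∣ 2 * K + 3) ∨
      (d ∣ p - 1 ∧ d ∣ 2 * K + 3) → d ∣ x ∨ d ∣ y) :
    ∃ R : ℤ[X], (∀ i, 0 ≤ R.coeff i) ∧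
      R * ((1 - X ^ (2 * K + 1)) * (1 - X ^ (2 * K + 3)) *
        ((∏ i ∈ range (K + p), (1 - X ^ (i + 1))) *
        (∏ i ∈ range p, (1 - X ^ (i + 1))) * ∏ i ∈ range (2 * K), (1 - X ^ (i + 1)))) =
      (1 - X ^ x) * (1 - X ^ y) *
        ((∏ i ∈ range (2 * (K + p)), (1 - X ^ (i + 1))) * ∏ i ∈ range K, (1 - X ^ (i + 1))) := by
  classical
  let w : Fin p ⊕ Fin p ⊕ Bool → ℕ := Sum.elim (fun i => 0 + i + 1)
    (Sum.elim (fun i => K + i + 1) (fun b => cond b (2 * K + 1) (2 * K + 3)))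
  let d : Fin p ⊕ Fin p ⊕ Bool → ℕ := Sum.elim (fun i => 2 * K + i + 1)
    (Sum.elim (fun i => 2 * K + (p + i) + 1) (fun b => cond b x y))
  obtain ⟨R, hR, e⟩ := hsop w d
    (by rintro (i | i | (_ | _)) <;> simp [w])
    (by rintro (i | i | (_ | _)) <;> simp [d] <;> omega)
    (by
      intro S
      have := count S hp hx hy hxy h2 hdiv
      rw [sum_range_add, ← Fin.sum_univ_eq_sum_range (fun i => ind S (0 + i + 1)),
        ← Fin.sum_univ_eq_sum_range (fun i => ind S (K + i + 1)),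
        ← Fin.sum_univ_eq_sum_range (fun i => ind S (2 * K + i + 1)),
        ← Fin.sum_univ_eq_sum_range (fun i => ind S (2 * K + (p + i) + 1)), add_assoc] at this
      rw [card_filter, card_filter]
      simp only [Fintype.sum_sum_type, Fintype.sum_bool]
      exact this)
  refine ⟨R, hR, ?_⟩
  simp only [Fintype.prod_sum_type, Fintype.prod_bool, w, d, Sum.elim_inl, Sum.elim_inr,
    cond_true, cond_false] at e
  rw [Fin.prod_univ_eq_prod_range (fun i => (1 - X ^ (0 + i + 1) : ℤ[X])),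
    Fin.prod_univ_eq_prod_range (fun i => (1 - X ^ (K + i + 1) : ℤ[X])),
    Fin.prod_univ_eq_prod_range (fun i => (1 - X ^ (2 * K + i + 1) : ℤ[X])),
    Fin.prod_univ_eq_prod_range (fun i => (1 - X ^ (2 * K + (p + i) + 1) : ℤ[X]))] at e
  simp only [zero_add] at e
  rw [show 2 * (K + p) = 2 * K + (p + p) by ring, prod_range_add _ (2 * K), prod_range_add _ p p,
    prod_range_add _ K p]
  linear_combination
    ((∏ i ∈ range K, (1 - X ^ (i + 1))) * ∏ i ∈ range (2 * K), (1 - X ^ (i + 1))) * e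

/-- the instance that is a `q`-analogue of the divisibility for `a > b` -/
theorem q_one (a b n i j x y : ℕ) (hb : 1 ≤ b) (hab : b < a) (hn : 1 ≤ n)
    (hx : 3 * (a - b) = 2 ^ i * x) (hy : 3 * a - b = 2 ^ j * y)
    (h : a = b + 2 → n = 1 → i = 0 ∨ b ≤ 2) :
    ∃ R : ℤ[X], (∀ k, 0 ≤ R.coeff k) ∧
      R * ((1 - X ^ (2 * (b * n) + 1)) * (1 - X ^ (2 * (b * n) + 3)) *
        ((∏ k ∈ range (a * n), (1 - X ^ (k + 1))) *
        (∏ k ∈ range ((a - b) * n), (1 - X ^ (k + 1))) *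
          ∏ k ∈ range (2 * (b * n)), (1 - X ^ (k + 1)))) =
      (1 - X ^ x) * (1 - X ^ y) *
        ((∏ k ∈ range (2 * (a * n)), (1 - X ^ (k + 1))) *
          ∏ k ∈ range (b * n), (1 - X ^ (k + 1))) := by
  obtain ⟨c, rfl⟩ : ∃ c, a = b + (c + 1) := ⟨a - b - 1, by omega⟩
  rw [Nat.add_sub_cancel_left] at hx ⊢
  rw [show 3 * (b + (c + 1)) - b = 2 * b + 3 * (c + 1) by omega] at hy
  have odd : ∀ {d m z s : ℕ}, d ∣ 2 * m + 1 → d ∣ 2 ^ s * z → d ∣ z := by
    intro d m z s h1 h2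
    have : Nat.Coprime d 2 := by
      rw [Nat.coprime_comm, Nat.prime_two.coprime_iff_not_dvd]
      intro h3
      have := h3.trans h1
      omega
    exact (this.pow_right s).dvd_of_dvd_mul_left h2
  have hx0 : 1 ≤ x := by
    rcases x with _ | x
    · simp at hx
    · omega
  have hy0 : 1 ≤ y := by
    rcases y with _ | y
    · simp at hy
    · omega
  have hx3 : 3 ≤ x := Nat.le_of_dvd hx0
    (odd (m := 1) (dvd_refl 3) (hx ▸ dvd_mul_right 3 (c + 1)))
  have hp : 1 ≤ (c + 1) * n := Nat.mul_pos (Nat.succ_pos c) hn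
  rw [add_mul]
  refine both (b * n) ((c + 1) * n) x y hp hx0 hy0 (by omega) (fun h2 => ?_) (fun d _ hd => ?_)
  · have h1 : n ≤ 2 := by nlinarith
    rcases (by omega : n = 1 ∨ n = 2) with rfl | rfl
    · rcases h (by omega) rfl with rfl | h3
      · left
        exact ⟨3, by omega⟩
      · right; right; left
        omega
    · obtain rfl : c = 0 := by omega
      right; right; right
      have := Nat.le_of_dvd hy0 (odd (m := b + 1) (d := 2 * (b + 1) + 1) (s := j) dvd_rfl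
        (dvd_of_eq (by omega)))
      omega
  · rcases hd with ⟨h1, h'⟩ | ⟨h1, h'⟩ | ⟨h1, h'⟩
    · left
      have e : (c + 1) * (2 * (b * n) + 1) = 2 * b * ((c + 1) * n) + (c + 1) := by ring
      have := h'.mul_left (c + 1)
      rw [e] at this
      exact odd h' (hx ▸ ((Nat.dvd_add_right (h1.mul_left _)).mp this).mul_left 3)
    · left
      have e : (c + 1) * (2 * (b * n) + 3) = 2 * b * ((c + 1) * n) + 3 * (c + 1) := by ring
      have := h'.mul_left (c + 1)
      rw [e] at this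
      exact odd (m := b * n + 1) h' (hx ▸ (Nat.dvd_add_right (h1.mul_left _)).mp this)
    · right
      obtain ⟨t, ht⟩ : ∃ t, (c + 1) * n = t + 1 := ⟨(c + 1) * n - 1, by omega⟩
      rw [ht, Nat.add_sub_cancel] at h1
      have e : (c + 1) * (2 * (b * n) + 3) = 2 * b * t + (2 * b + 3 * (c + 1)) := by
        have : (c + 1) * (2 * (b * n) + 3) = 2 * b * ((c + 1) * n) + 3 * (c + 1) := by ring
        rw [this, ht]; ring
      have := h'.mul_left (c + 1)
      rw [e] at this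
      exact odd (m := b * n + 1) h' (hy ▸ (Nat.dvd_add_right (h1.mul_left _)).mp this)

end Pool.Agent.MP_698530_nt.Hs
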