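import Mathlib

/-! Generic weighted homogeneous forms with the origin as only common zero. -/

namespace Pool.Agent.MP_698530_nt.Hs

open MvPolynomial Finset

/-- an independent family inside the field generated by `s` has at most `#s` members -/
lemma card_le_of_indep {k σ : Type} [Field k] [Algebra ℚ k] [Fintype σ] (c : σ → k)
    (hc : AlgebraicIndependent ℚ c) (s : Finset k)
    (h : ∀ a, IsAlgebraic (Algebra.adjoin ℚ (s : Set k)) (c a)) : Fintype.card σ ≤ s.card := by
  have hI : (AlgebraicIndependent.matroid ℚ k).Indep (Set.range c) := by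
    rw [AlgebraicIndependent.matroid_indep_iff]
    exact hc.to_subtype_range
  have hsub : Set.range c ⊆ (AlgebraicIndependent.matroid ℚ k).closure (s : Set k) := by
    rw [AlgebraicIndependent.matroid_closure_eq]
    rintro _ ⟨a, rfl⟩
    exact (Subalgebra.mem_algebraicClosure _ _).mpr (h a)
  have h1 := hI.encard_le_eRk_of_subset hsub
  rw [Matroid.eRk_closure_eq] at h1
  have h2 := h1.trans (Matroid.eRk_le_encard _ _)
  rw [Set.encard_coe_eq_coe_finsetCard, ← Set.image_univ,
    hc.injective.encard_image, Set.encard_univ, ENat.card_eq_coe_fintype_card] at h2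
  exact_mod_cast h2

variable {ι : Type} [Fintype ι] [DecidableEq ι]

/-- the weights of monomials in the variables `J` -/
def SJ (w : ι → ℕ) (J : Finset ι) : AddSubmonoid ℕ where
  carrier := {n | ∃ e : ι →₀ ℕ, e.support ⊆ J ∧ Finsupp.weight w e = n}
  zero_mem' := ⟨0, by simp, by simp⟩
  add_mem' := by
    rintro _ _ ⟨e, he, rfl⟩ ⟨e', he', rfl⟩
    exact ⟨e + e', Finsupp.support_add.trans (union_subset he he'), by simp⟩

open Classical in
/-- a monomial of weight `n` in the variables `J`, if there is one -/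
noncomputable def MJ (k : Type) [Field k] (w : ι → ℕ) (J : Finset ι) (n : ℕ) :
    MvPolynomial ι k :=
  if h : n ∈ SJ w J then monomial (Classical.choose h) 1 else 0

omit [Fintype ι] in
lemma MJ_cases (k : Type) [Field k] (w : ι → ℕ) (J : Finset ι) (n : ℕ) :
    (n ∉ SJ w J ∧ MJ k w J n = 0) ∨
      ∃ e : ι →₀ ℕ, e.support ⊆ J ∧ Finsupp.weight w e = n ∧ MJ k w J n = monomial e 1 := by
  by_cases h : n ∈ SJ w J
  · right
    exact ⟨Classical.choose h, (Classical.choose_spec h).1, (Classical.choose_spec h).2,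
      by simp [MJ, h]⟩
  · left
    exact ⟨h, by simp [MJ, h]⟩

omit [Fintype ι] in
lemma MJ_hom (k : Type) [Field k] (w : ι → ℕ) (J : Finset ι) (n : ℕ) :
    IsWeightedHomogeneous w (MJ k w J n) n := by
  rcases MJ_cases k w J n with ⟨-, h⟩ | ⟨e, -, he, h⟩
  · rw [h]; exact isWeightedHomogeneous_zero _ _ _
  · rw [h]; exact isWeightedHomogeneous_monomial _ _ _ he

omit [Fintype ι] in
lemma MJ_scale {k : Type} [Field k] (w : ι → ℕ) (J : Finset ι) (n : ℕ) (x : ι → k) (t : k) :
    eval (fun j => t ^ w j * x j) (MJ k w J n) = t ^ n * eval x (MJ k w J n) := by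
  rcases MJ_cases k w J n with ⟨-, h⟩ | ⟨e, -, he, h⟩
  · simp [h]
  · rw [h, eval_monomial, eval_monomial, one_mul, one_mul, ← he, Finsupp.weight_apply]
    simp only [Finsupp.prod, Finsupp.sum, mul_pow, prod_mul_distrib, smul_eq_mul]
    rw [← prod_pow_eq_pow_sum]
    congr 1
    exact prod_congr rfl fun j _ => by rw [← pow_mul, mul_comm]

omit [Fintype ι] in
lemma MJ_mem {k : Type} [Field k] [Algebra ℚ k] (w : ι → ℕ) (J : Finset ι) (n : ℕ) (x : ι → k)
    (A : Subalgebra ℚ k) (hx : ∀ j, x j ∈ A) : eval x (MJ k w J n) ∈ A := by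
  rcases MJ_cases k w J n with ⟨-, h⟩ | ⟨e, -, -, h⟩
  · simp [h]
  · rw [h, eval_monomial, one_mul]
    exact A.prod_mem fun j _ => A.pow_mem (hx j) _

omit [Fintype ι] in
lemma MJ_ne {k : Type} [Field k] (w : ι → ℕ) (J : Finset ι) (n : ℕ) (x : ι → k)
    (hn : n ∈ SJ w J) (hx : ∀ j ∈ J, x j ≠ 0) : eval x (MJ k w J n) ≠ 0 := by
  rcases MJ_cases k w J n with ⟨h, -⟩ | ⟨e, he, -, h⟩
  · exact absurd hn h
  · rw [h, eval_monomial, one_mul]
    exact prod_ne_zero_iff.mpr fun j hj => pow_ne_zero _ (hx j (he hj))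

open Classical in
theorem exists_forms {k : Type} [Field k] [IsAlgClosed k] [Algebra ℚ k]
    (c : ι × Finset ι → k) (hc : AlgebraicIndependent ℚ c) (w d : ι → ℕ) (hw : ∀ j, w j ≠ 0)
    (H : ∀ S : AddSubmonoid ℕ, #{j | w j ∈ S} ≤ #{i | d i ∈ S}) :
    ∃ f : ι → MvPolynomial ι k, (∀ i, IsWeightedHomogeneous w (f i) (d i)) ∧
      ∀ x : ι → k, (∀ i, eval x (f i) = 0) → x = 0 := by
  refine ⟨fun i => ∑ J, C (c (i, J)) * MJ k w J (d i), fun i => ?_, fun x hx => ?_⟩
  · exact IsWeightedHomogeneous.sum _ _ _ fun J _ => (MJ_hom k w J (d i)).C_mul _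
  by_contra hne
  obtain ⟨j0, hj0⟩ : ∃ j, x j ≠ 0 := by
    by_contra h
    push Not at h
    exact hne (funext h)
  obtain ⟨t, ht⟩ := IsAlgClosed.exists_pow_nat_eq (x j0)⁻¹ (Nat.pos_of_ne_zero (hw j0))
  have ht0 : t ≠ 0 := by
    rintro rfl
    rw [zero_pow (hw j0)] at ht
    exact inv_ne_zero hj0 ht.symm
  set y : ι → k := fun j => t ^ w j * x j with hy
  set J : Finset ι := {j | x j ≠ 0} with hJ
  set I : Finset ι := {i | d i ∈ SJ w J} with hI
  have hJI : #J ≤ #I := by
    refine le_trans (card_le_card ?_) (H (SJ w J))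
    intro j hj
    simp only [mem_filter, mem_univ, true_and]
    exact ⟨Finsupp.single j 1, Finsupp.support_single_subset.trans (by simpa using hj),
      by simp [Finsupp.weight_single]⟩
  have hj0J : j0 ∈ J := by simpa [hJ] using hj0
  set s : Finset k := (univ \ I ×ˢ {J}).image c ∪ (J.erase j0).image y with hs
  have hcard : #s < Fintype.card (ι × Finset ι) := by
    have h1 : #((univ \ I ×ˢ {J}).image c) ≤ Fintype.card (ι × Finset ι) - #I := by
      refine card_image_le.trans ?_
      rw [card_sdiff_of_subset (subset_univ _), card_univ, card_product, card_singleton, mul_one]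
    have h2 : #((J.erase j0).image y) ≤ #J - 1 := by
      refine card_image_le.trans ?_
      rw [card_erase_of_mem hj0J]
    have h3 : #I ≤ Fintype.card (ι × Finset ι) := by
      have := card_le_univ (I ×ˢ ({J} : Finset (Finset ι)))
      rwa [card_product, card_singleton, mul_one] at this
    have h4 : 0 < #J := card_pos.mpr ⟨j0, hj0J⟩
    have h5 := card_union_le ((univ \ I ×ˢ {J}).image c) ((J.erase j0).image y)
    rw [← hs] at h5
    omega
  refine absurd (card_le_of_indep c hc s ?_) (not_le.mpr hcard)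
  set A := Algebra.adjoin ℚ (s : Set k) with hA
  have hyA : ∀ j, y j ∈ A := by
    intro j
    by_cases h0 : x j = 0
    · simp [hy, h0]
    by_cases h1 : j = j0
    · subst h1
      have : y j = 1 := by simp only [hy, ht]; exact inv_mul_cancel₀ h0
      rw [this]; exact A.one_mem
    · refine Algebra.subset_adjoin ?_
      simp only [hs, coe_union, coe_image, Set.mem_union, Set.mem_image]
      exact Or.inr ⟨j, by simp [hJ, h0, h1], rfl⟩
  have hcA : ∀ a, a ∉ I ×ˢ ({J} : Finset (Finset ι)) → c a ∈ A := by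
    intro a ha
    refine Algebra.subset_adjoin ?_
    simp only [hs, coe_union, coe_image, Set.mem_union, Set.mem_image]
    exact Or.inl ⟨a, by simpa using ha, rfl⟩
  rintro ⟨i, J'⟩
  by_cases ha : (i, J') ∈ I ×ˢ ({J} : Finset (Finset ι))
  · obtain ⟨hi, hJ'⟩ := mem_product.mp ha
    obtain rfl : J' = J := by simpa using hJ'
    have hd : d i ∈ SJ w J := by simpa [hI] using hi
    have h0 : ∑ J', c (i, J') * eval y (MJ k w J' (d i)) = 0 := by
      have := hx i
      simp only [map_sum, map_mul, eval_C] at this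
      simp only [hy, MJ_scale]
      calc ∑ J', c (i, J') * (t ^ d i * eval x (MJ k w J' (d i)))
          = t ^ d i * ∑ J', c (i, J') * eval x (MJ k w J' (d i)) := by
            rw [mul_sum]; exact sum_congr rfl fun _ _ => by ring
        _ = 0 := by rw [this, mul_zero]
    rw [← add_sum_erase _ _ (mem_univ J)] at h0
    have hne : eval y (MJ k w J (d i)) ≠ 0 :=
      MJ_ne w J (d i) y hd fun j hj =>
        mul_ne_zero (pow_ne_zero _ ht0) (by simpa [hJ] using hj)
    have hB : ∑ J' ∈ univ.erase J, c (i, J') * eval y (MJ k w J' (d i)) ∈ A :=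
      A.sum_mem fun J' hJ' => A.mul_mem (hcA _ (by
        simp only [mem_product, mem_singleton, not_and]
        exact fun _ => (mem_erase.mp hJ').1)) (MJ_mem w J' (d i) y A hyA)
    refine ⟨Polynomial.C ⟨_, MJ_mem w J (d i) y A hyA⟩ * Polynomial.X + Polynomial.C ⟨_, hB⟩,
      ?_, ?_⟩
    · intro h
      have := congrArg (fun p => ((Polynomial.coeff p 1 : A) : k)) h
      simp at this
      exact hne this
    · simp only [map_add, map_mul, Polynomial.aeval_C, Polynomial.aeval_X]
      rw [mul_comm]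
      exact h0
  · exact isAlgebraic_algebraMap (⟨_, hcA _ ha⟩ : A)

end Pool.Agent.MP_698530_nt.Hs
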