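import Pool.Agent.MP_698530_nt.Hs.Gen
import Pool.Agent.MP_e7463b_ag.SDepth

/-! Hilbert series of the quotient by a weighted homogeneous system of parameters. -/

namespace Pool.Agent.MP_698530_nt.Hs

open MvPolynomial Finset Module

variable {ι k : Type} [Field k]

lemma comp_mul_add {w : ι → ℕ} {f : MvPolynomial ι k} {d : ℕ} (hf : IsWeightedHomogeneous w f d)
    (g : MvPolynomial ι k) (n : ℕ) :
    weightedHomogeneousComponent w (d + n) (f * g) = f * weightedHomogeneousComponent w n g := by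
  let := weightedGradedAlgebra k w
  have := DirectSum.coe_decompose_mul_add_of_left_mem (weightedHomogeneousSubmodule k w)
    (a := f) (b := g) (i := d) (j := n) hf
  rw [← weightedDecomposition.decompose'_apply, ← weightedDecomposition.decompose'_apply]
  exact this

lemma comp_mul_lt {w : ι → ℕ} {f : MvPolynomial ι k} {d : ℕ} (hf : IsWeightedHomogeneous w f d)
    (g : MvPolynomial ι k) {n : ℕ} (h : n < d) :
    weightedHomogeneousComponent w n (f * g) = 0 := by
  let := weightedGradedAlgebra k w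
  have := DirectSum.coe_decompose_mul_of_left_mem_of_not_le (weightedHomogeneousSubmodule k w)
    (a := f) (b := g) (i := d) (n := n) hf (not_le.mpr h)
  rw [← weightedDecomposition.decompose'_apply]
  exact this

/-- the ideal contains the components of its members -/
def Hom (w : ι → ℕ) (I : Ideal (MvPolynomial ι k)) : Prop :=
  ∀ p ∈ I, ∀ n, weightedHomogeneousComponent w n p ∈ I

lemma Hom.sup {w : ι → ℕ} {I : Ideal (MvPolynomial ι k)} (hI : Hom w I) {f : MvPolynomial ι k}
    {d : ℕ} (hf : IsWeightedHomogeneous w f d) : Hom w (Ideal.span {f} ⊔ I) := by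
  intro p hp n
  obtain ⟨a, b, hb, rfl⟩ := Ideal.mem_span_singleton_sup.mp hp
  rw [map_add, mul_comm]
  refine Ideal.add_mem _ (Ideal.mem_sup_left ?_) (Ideal.mem_sup_right (hI b hb n))
  rcases lt_or_ge n d with h | h
  · rw [comp_mul_lt hf a h]; exact Ideal.zero_mem _
  · obtain ⟨m, rfl⟩ := Nat.exists_eq_add_of_le h
    rw [comp_mul_add hf]
    exact Ideal.mul_mem_right _ _ (Ideal.mem_span_singleton_self f)

/-- the Hilbert function of the quotient by `I` -/
noncomputable def hf (w : ι → ℕ) (I : Ideal (MvPolynomial ι k)) (n : ℕ) : ℤ :=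
  (finrank k (weightedHomogeneousSubmodule k w n) : ℤ) -
    finrank k ↥(weightedHomogeneousSubmodule k w n ⊓ I.restrictScalars k)

lemma fd [Finite ι] {w : ι → ℕ} (hw : ∀ j, w j ≠ 0) (n : ℕ) :
    FiniteDimensional k (weightedHomogeneousSubmodule k w n) :=
  Module.Finite.iff_fg.mpr (weightedHomogeneousSubmodule_fg k w hw n)

lemma hf_nonneg [Finite ι] {w : ι → ℕ} (hw : ∀ j, w j ≠ 0) (I : Ideal (MvPolynomial ι k))
    (n : ℕ) : 0 ≤ hf w I n := by
  have := fd (k := k) hw n
  have := Submodule.finrank_mono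
    (inf_le_left : weightedHomogeneousSubmodule k w n ⊓ I.restrictScalars k ≤ _)
  unfold hf
  omega

lemma hf_eq_zero {w : ι → ℕ} {I : Ideal (MvPolynomial ι k)} {n : ℕ}
    (h : ∀ g, IsWeightedHomogeneous w g n → g ∈ I) : hf w I n = 0 := by
  have : weightedHomogeneousSubmodule k w n ⊓ I.restrictScalars k =
      weightedHomogeneousSubmodule k w n := inf_eq_left.mpr fun g hg => h g hg
  unfold hf
  rw [this, sub_self]

lemma hf_lt {w : ι → ℕ} {I : Ideal (MvPolynomial ι k)} (hI : Hom w I) {f : MvPolynomial ι k}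
    {d : ℕ} (hf' : IsWeightedHomogeneous w f d) {n : ℕ} (h : n < d) :
    hf w (Ideal.span {f} ⊔ I) n = hf w I n := by
  have : weightedHomogeneousSubmodule k w n ⊓ (Ideal.span {f} ⊔ I).restrictScalars k =
      weightedHomogeneousSubmodule k w n ⊓ I.restrictScalars k := by
    apply le_antisymm
    · rintro p ⟨hp, hp'⟩
      refine ⟨hp, ?_⟩
      obtain ⟨a, b, hb, rfl⟩ := Ideal.mem_span_singleton_sup.mp hp'
      have e := weightedHomogeneousComponent_eq_self hp
      rw [map_add, mul_comm, comp_mul_lt hf' a h, zero_add] at e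
      rw [mul_comm, ← e]
      exact hI b hb n
    · rintro p ⟨hp, hp'⟩
      exact ⟨hp, Ideal.mem_sup_right hp'⟩
  unfold hf
  rw [this]

lemma hf_add [Finite ι] {w : ι → ℕ} (hw : ∀ j, w j ≠ 0) {I : Ideal (MvPolynomial ι k)}
    (hI : Hom w I) {f : MvPolynomial ι k} {d : ℕ} (hf' : IsWeightedHomogeneous w f d) (n : ℕ)
    (hreg : ∀ g, IsWeightedHomogeneous w g n → f * g ∈ I → g ∈ I) :
    hf w (Ideal.span {f} ⊔ I) (d + n) = hf w I (d + n) - hf w I n := by
  by_cases h0 : f = 0
  · subst h0
    rw [hf_eq_zero (n := n) fun g hg => hreg g hg (by simp)]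
    simp
  have := fd (k := k) hw n
  have := fd (k := k) hw (d + n)
  have hinj : Function.Injective (LinearMap.mulLeft k f) := mul_right_injective₀ h0
  set V := weightedHomogeneousSubmodule k w with hV
  have e1 : V (d + n) ⊓ (Ideal.span {f} ⊔ I).restrictScalars k =
      (V (d + n) ⊓ I.restrictScalars k) ⊔ (V n).map (LinearMap.mulLeft k f) := by
    apply le_antisymm
    · rintro p ⟨hp, hp'⟩
      obtain ⟨a, b, hb, rfl⟩ := Ideal.mem_span_singleton_sup.mp hp'
      have e := weightedHomogeneousComponent_eq_self hp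
      rw [map_add, mul_comm, comp_mul_add hf'] at e
      rw [mul_comm, ← e, add_comm (f * _)]
      exact Submodule.add_mem_sup ⟨weightedHomogeneousComponent_mem w b _, hI b hb _⟩
        ⟨_, weightedHomogeneousComponent_mem w a _, rfl⟩
    · refine sup_le ?_ ?_
      · rintro p ⟨hp, hp'⟩
        exact ⟨hp, Ideal.mem_sup_right hp'⟩
      · rintro _ ⟨g, hg, rfl⟩
        exact ⟨hf'.mul hg, Ideal.mem_sup_left
          (Ideal.mul_mem_right _ _ (Ideal.mem_span_singleton_self f))⟩
  have e2 : (V (d + n) ⊓ I.restrictScalars k) ⊓ (V n).map (LinearMap.mulLeft k f) =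
      (V n ⊓ I.restrictScalars k).map (LinearMap.mulLeft k f) := by
    apply le_antisymm
    · rintro _ ⟨⟨-, hp⟩, g, hg, rfl⟩
      exact ⟨g, ⟨hg, hreg g hg hp⟩, rfl⟩
    · rintro _ ⟨g, ⟨hg, hg'⟩, rfl⟩
      exact ⟨⟨hf'.mul hg, I.mul_mem_left f hg'⟩, g, hg, rfl⟩
  have e3 := Submodule.finrank_sup_add_finrank_inf_eq (V (d + n) ⊓ I.restrictScalars k)
    ((V n).map (LinearMap.mulLeft k f))
  rw [← e1, e2, ← (Submodule.equivMapOfInjective _ hinj _).finrank_eq,
    ← (Submodule.equivMapOfInjective _ hinj _).finrank_eq] at e3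
  unfold hf
  rw [← hV]
  omega

lemma series_step [Finite ι] {w : ι → ℕ} (hw : ∀ j, w j ≠ 0) {I : Ideal (MvPolynomial ι k)}
    (hI : Hom w I) {f : MvPolynomial ι k} {d : ℕ} (hf' : IsWeightedHomogeneous w f d)
    (hreg : ∀ n g, IsWeightedHomogeneous w g n → f * g ∈ I → g ∈ I) :
    PowerSeries.mk (hf w (Ideal.span {f} ⊔ I)) =
      (1 - PowerSeries.X ^ d) * PowerSeries.mk (hf w I) := by
  ext n
  rw [sub_mul, one_mul, map_sub, PowerSeries.coeff_X_pow_mul', PowerSeries.coeff_mk,
    PowerSeries.coeff_mk, PowerSeries.coeff_mk]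
  split_ifs with h
  · obtain ⟨m, rfl⟩ := Nat.exists_eq_add_of_le h
    rw [hf_add hw hI hf' m (hreg m), Nat.add_sub_cancel_left]
  · rw [hf_lt hI hf' (not_le.mp h), sub_zero]

lemma series_span [Finite ι] [DecidableEq ι] {w : ι → ℕ} (hw : ∀ j, w j ≠ 0)
    {u : ι → MvPolynomial ι k} {d : ι → ℕ} (hu : ∀ i, IsWeightedHomogeneous w (u i) (d i))
    (hreg : ∀ F : Finset ι, ∀ i ∉ F, Hom w (Ideal.span (u '' (F : Set ι))) →
      ∀ n g, IsWeightedHomogeneous w g n →
      u i * g ∈ Ideal.span (u '' (F : Set ι)) → g ∈ Ideal.span (u '' (F : Set ι)))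
    (F : Finset ι) : Hom w (Ideal.span (u '' (F : Set ι))) ∧
      PowerSeries.mk (hf w (Ideal.span (u '' (F : Set ι)))) =
      (∏ i ∈ F, (1 - PowerSeries.X ^ d i)) *
        PowerSeries.mk (hf w (⊥ : Ideal (MvPolynomial ι k))) := by
  induction F using Finset.induction_on with
  | empty =>
    simp only [coe_empty, Set.image_empty, Ideal.span_empty, prod_empty, one_mul, and_true]
    intro p hp n
    rw [Ideal.mem_bot.mp hp, map_zero]
    exact Ideal.zero_mem _
  | insert i F hi ih =>
    rw [coe_insert, Set.image_insert_eq, Ideal.span_insert]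
    refine ⟨ih.1.sup (hu i), ?_⟩
    rw [series_step hw ih.1 (hu i) (hreg F i hi ih.1), ih.2, prod_insert hi, mul_assoc]

lemma reg_X (F : Finset ι) (i : ι) (hi : i ∉ F) (g : MvPolynomial ι k)
    (h : X i * g ∈ Ideal.span (X '' (F : Set ι) : Set (MvPolynomial ι k))) :
    g ∈ Ideal.span (X '' (F : Set ι) : Set (MvPolynomial ι k)) := by
  rw [mem_ideal_span_X_image] at h ⊢
  intro m hm
  obtain ⟨j, hj, h'⟩ := h (Finsupp.single i 1 + m) (by
    rw [MvPolynomial.mem_support_iff, coeff_X_mul]; exact MvPolynomial.mem_support_iff.mp hm)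
  refine ⟨j, hj, ?_⟩
  have : j ≠ i := fun e => hi (e ▸ hj)
  rwa [Finsupp.add_apply, Finsupp.single_eq_of_ne this, zero_add] at h'

lemma series_X [Fintype ι] {w : ι → ℕ} (hw : ∀ j, w j ≠ 0) :
    PowerSeries.mk (hf w (Ideal.span (X '' ((univ : Finset ι) : Set ι) :
      Set (MvPolynomial ι k)))) = 1 := by
  ext n
  rw [PowerSeries.coeff_mk, PowerSeries.coeff_one]
  split_ifs with h
  · subst h
    have e1 : weightedHomogeneousSubmodule k w 0 = Submodule.span k {1} := by
      apply le_antisymm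
      · intro p hp
        have e := weightedHomogeneousComponent_eq_self hp
        rw [weightedHomogeneousComponent_zero p hw] at e
        rw [← e, Submodule.mem_span_singleton]
        exact ⟨coeff 0 p, by simp [smul_eq_C_mul]⟩
      · rw [Submodule.span_singleton_le_iff_mem]
        exact isWeightedHomogeneous_one k w
    have e2 : weightedHomogeneousSubmodule k w 0 ⊓ (Ideal.span (X '' ((univ : Finset ι) : Set ι) :
        Set (MvPolynomial ι k))).restrictScalars k = ⊥ := by
      rw [eq_bot_iff]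
      rintro p ⟨hp, hp'⟩
      have e := weightedHomogeneousComponent_eq_self hp
      rw [weightedHomogeneousComponent_zero p hw] at e
      have h0 : coeff 0 p = 0 := by
        by_contra h0
        obtain ⟨j, -, hj⟩ := mem_ideal_span_X_image.mp hp' 0 (MvPolynomial.mem_support_iff.mpr h0)
        exact hj rfl
      rw [← e, h0, map_zero]
      exact Submodule.zero_mem _
    unfold hf
    rw [e2, e1, finrank_span_singleton one_ne_zero, finrank_bot]
    rfl
  · refine hf_eq_zero fun g hg => mem_ideal_span_X_image.mpr fun m hm => ?_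
    by_contra hc
    push Not at hc
    have : m = 0 := by ext j; exact hc j (by simp)
    subst this
    exact h (by rw [← hg (MvPolynomial.mem_support_iff.mp hm), map_zero])

open Pool.Agent.MP_e7463b_ag.S in
lemma reg_forms [Fintype ι] [DecidableEq ι] {w : ι → ℕ} (hw : ∀ j, w j ≠ 0)
    {u : ι → MvPolynomial ι k} {d : ι → ℕ} (hd : ∀ i, d i ≠ 0)
    (hu : ∀ i, IsWeightedHomogeneous w (u i) (d i))
    (hrad : ∀ j, X j ∈ (Ideal.span (Set.range u)).radical)
    (F : Finset ι) (i : ι) (hi : i ∉ F) (hH : Hom w (Ideal.span (u '' (F : Set ι))))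
    (n : ℕ) (g : MvPolynomial ι k) (hg : IsWeightedHomogeneous w g n)
    (h : u i * g ∈ Ideal.span (u '' (F : Set ι))) : g ∈ Ideal.span (u '' (F : Set ι)) := by
  let P : Ideal (MvPolynomial ι k) := vanishingIdeal k {(0 : ι → k)}
  have hP : ∀ p, p ∈ P ↔ coeff 0 p = 0 := by
    intro p
    rw [mem_vanishingIdeal_singleton_iff]
    have : aeval (0 : ι → k) p = constantCoeff p := by simp
    rw [this, constantCoeff_eq]
  let O := Localization.AtPrime P
  let φ := algebraMap (MvPolynomial ι k) O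
  have hspan : ∀ (v : ι → MvPolynomial ι k) (s : Set ι),
      Ideal.span ((fun j => φ (v j)) '' s) = (Ideal.span (v '' s)).map φ := by
    intro v s
    rw [Ideal.map_span, Set.image_image]
  have hX : RegAll (fun j => φ (X j)) := by
    intro G j hj x hx
    rw [hspan] at hx ⊢
    obtain ⟨a, s, rfl⟩ := IsLocalization.exists_mk'_eq P.primeCompl x
    rw [IsLocalization.mul_mk'_eq_mk'_of_mul, IsLocalization.mk'_mem_map_algebraMap_iff] at hx
    obtain ⟨t, ht, hx⟩ := hx
    rw [IsLocalization.mk'_mem_map_algebraMap_iff]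
    exact ⟨t, ht, reg_X G j hj _ (by rwa [mul_left_comm])⟩
  have hU : RegAll (fun j => φ (u j)) := by
    refine regAll_of_radical hX (fun j => ?_) (fun j => ?_) (fun j => ?_)
    · exact (IsLocalization.AtPrime.to_map_mem_maximal_iff O P _).mpr ((hP _).mpr (by simp))
    · refine (IsLocalization.AtPrime.to_map_mem_maximal_iff O P _).mpr ((hP _).mpr ?_)
      exact (hu j).coeff_eq_zero 0 (by rw [map_zero]; exact (hd j).symm)
    · rw [← Set.image_univ, hspan, Set.image_univ]
      exact Ideal.map_radical_le φ (Ideal.mem_map_of_mem φ (hrad j))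
  have h1 := hU F i hi (φ g) (by rw [hspan, ← map_mul]; exact Ideal.mem_map_of_mem φ h)
  rw [hspan, IsLocalization.algebraMap_mem_map_algebraMap_iff P.primeCompl] at h1
  obtain ⟨t, ht, h1⟩ := h1
  have h2 := hH _ h1 (n + 0)
  rw [mul_comm, comp_mul_add hg, weightedHomogeneousComponent_zero t hw] at h2
  have ht0 : coeff 0 t ≠ 0 := fun e => ht ((hP t).mpr e)
  have h3 := Ideal.mul_mem_right (C (coeff 0 t)⁻¹) _ h2
  rwa [mul_assoc, ← C_mul, mul_inv_cancel₀ ht0, C_1, mul_one] at h3

lemma high_mem [Fintype ι] {w : ι → ℕ} {I : Ideal (MvPolynomial ι k)}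
    (hrad : ∀ j, X j ∈ I.radical) :
    ∃ B, ∀ n, B < n → ∀ g, IsWeightedHomogeneous w g n → g ∈ I := by
  choose N hN using hrad
  refine ⟨∑ j, N j * w j, fun n hn g hg => ?_⟩
  rw [g.as_sum]
  refine Ideal.sum_mem _ fun e he => ?_
  obtain ⟨j, hj⟩ : ∃ j, N j ≤ e j := by
    by_contra hc
    push Not at hc
    have h1 := hg (MvPolynomial.mem_support_iff.mp he)
    rw [Finsupp.weight_apply, Finsupp.sum_fintype _ _ (by simp)] at h1
    have : ∑ j, e j • w j ≤ ∑ j, N j * w j :=
      sum_le_sum fun j _ => Nat.mul_le_mul_right _ (hc j).le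
    omega
  have : e = Finsupp.single j (N j) + (e - Finsupp.single j (N j)) :=
    (add_tsub_cancel_of_le (Finsupp.single_le_iff.mpr hj)).symm
  rw [this, monomial_single_add]
  exact Ideal.mul_mem_right _ _ (hN j)

open Classical in
/-- the positivity criterion -/
theorem hsop {ι : Type} [Fintype ι] (w d : ι → ℕ) (hw : ∀ j, w j ≠ 0) (hd : ∀ i, d i ≠ 0)
    (H : ∀ S : AddSubmonoid ℕ, #{j | w j ∈ S} ≤ #{i | d i ∈ S}) :
    ∃ R : Polynomial ℤ, (∀ i, 0 ≤ R.coeff i) ∧
      R * ∏ j, (1 - Polynomial.X ^ w j) = ∏ i, (1 - Polynomial.X ^ d i) := by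
  let A := MvPolynomial (ι × Finset ι) ℚ
  let k := AlgebraicClosure (FractionRing A)
  have hinj : Function.Injective (IsScalarTower.toAlgHom ℚ A k) := by
    change Function.Injective (algebraMap A k)
    rw [IsScalarTower.algebraMap_eq A (FractionRing A) k]
    exact (algebraMap (FractionRing A) k).injective.comp (IsFractionRing.injective A _)
  have hc : AlgebraicIndependent ℚ (IsScalarTower.toAlgHom ℚ A k ∘ X) :=
    (MvPolynomial.algebraicIndependent_X (ι × Finset ι) ℚ).map' hinj
  obtain ⟨u, hu, hz⟩ := exists_forms _ hc w d hw H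
  have hrad : ∀ j, X j ∈ (Ideal.span (Set.range u)).radical := by
    intro j
    rw [← vanishingIdeal_zeroLocus_eq_radical (K := k), zeroLocus_span, mem_vanishingIdeal_iff]
    intro x hx
    have : x = 0 := hz x fun i => by simpa using hx (u i) ⟨i, rfl⟩
    simp [this]
  have h1 := (series_span hw hu (reg_forms hw hd hu hrad) univ).2
  have h2 := (series_span (k := k) hw (isWeightedHomogeneous_X k w)
    (fun F i hi _ _ g _ h => reg_X F i hi g h) univ).2
  rw [series_X hw] at h2
  rw [coe_univ, Set.image_univ] at h1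
  obtain ⟨B, hB⟩ := high_mem (w := w) hrad
  set T := PowerSeries.mk (hf w (Ideal.span (Set.range u))) with hT
  have h3 : (PowerSeries.trunc (B + 1) T : PowerSeries ℤ) = T := by
    ext n
    rw [Polynomial.coeff_coe, PowerSeries.coeff_trunc]
    split_ifs with h
    · rfl
    · rw [hT, PowerSeries.coeff_mk, hf_eq_zero (hB n (by omega))]
  refine ⟨PowerSeries.trunc (B + 1) T, fun i => ?_, ?_⟩
  · rw [← Polynomial.coeff_coe, h3, hT, PowerSeries.coeff_mk]
    exact hf_nonneg hw _ _
  · apply Polynomial.coe_injective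
    have e : ∀ v : ι → ℕ, ((∏ j, (1 - Polynomial.X ^ v j) : Polynomial ℤ) : PowerSeries ℤ) =
        ∏ j, (1 - PowerSeries.X ^ v j) := by
      intro v
      rw [← Polynomial.coeToPowerSeries.ringHom_apply, map_prod]
      simp
    rw [Polynomial.coe_mul, h3, e, e, h1, mul_assoc, mul_comm (PowerSeries.mk _), ← h2, mul_one]

end Pool.Agent.MP_698530_nt.Hs
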